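import Pool.Agent.H.MP_fbbc72_al.h23.F4

/-!
MP_fbbc72_al.  Filtered algebras of quadratic growth over a finite field whose associated graded
algebra is a subdirect product of finitely many domains.

Let `k` be a finite field, `D` a division `k`-algebra, `R = ⋃ R n` a filtered subalgebra of `D`
with `dim R n ≤ C (n+1)^2` and quotient division ring `D`.  Suppose that `gr R` is a finitely
generated algebra with finitely many graded completely prime ideals `N i` with zero intersection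
(for example, that `gr R` is a domain).  Then `D` is finite-dimensional over its centre.
The ideal `N i` is given by the subspaces `N i n` with `R (n-1) ≤ N i n ≤ R n`.
-/

namespace Pool.Agent.Results.MP_fbbc72_al.AssocGraded

open Pool.Agent.BQG Module

theorem result (k D : Type*) [Field k] [Finite k] [DivisionRing D] [Algebra k D]
    (R : ℕ → Submodule k D) (hfin : ∀ n, (R n).FG) (hone : (1 : D) ∈ R 0) (hmono : Monotone R)
    (hmul : ∀ m n, ∀ x ∈ R m, ∀ y ∈ R n, x * y ∈ R (m + n))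
    (C : ℕ) (hgrowth : ∀ n, Module.finrank k ↥(R n) ≤ C * (n + 1) ^ 2)
    (hfrac : ∀ d : D, ∃ n, ∃ u ∈ R n, ∃ v ∈ R n, v ≠ 0 ∧ d = u * v⁻¹)
    (hgen : ∃ m, ∀ n, m < n → R n ≤ R (n - 1) ⊔ ⨆ i ∈ Finset.Ioo 0 n, R i * R (n - i))
    (r : ℕ) (N : Fin r → ℕ → Submodule k D)
    (hNle : ∀ i n, N i n ≤ R n) (hNlow : ∀ i n, R n ≤ N i (n + 1))
    (hNone : ∀ i, (1 : D) ∉ N i 0)
    (hNleft : ∀ i m n, ∀ x ∈ R m, ∀ y ∈ N i n, x * y ∈ N i (m + n))
    (hNright : ∀ i m n, ∀ x ∈ N i m, ∀ y ∈ R n, x * y ∈ N i (m + n))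
    (hNprime : ∀ i m n, ∀ x ∈ R m, ∀ y ∈ R n, x * y ∈ N i (m + n) → x ∈ N i m ∨ y ∈ N i n)
    (hint : ∀ n, ∀ x ∈ R (n + 1), (∀ i, x ∈ N i (n + 1)) → x ∈ R n) :
    Module.Finite (Subring.center D) D := by
  have hR : Filt R C := ⟨hfin, hone, hmono, hmul, hgrowth, hfrac⟩
  have hN : ∀ i, SymPair R (N i) := fun i =>
    ⟨hone, hmul, hNle i, hNlow i, hNone i, hNleft i, hNright i, hNprime i⟩
  exact finCent_of_gr hR hgen hN hint

end Pool.Agent.Results.MP_fbbc72_al.AssocGraded
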