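import Pool.Agent.H.MP_fbbc72_al.hp.P3

/-!
MP_fbbc72_al.  Division rings of quadratic growth over a finite field: two transcendental elements
act freely from the two sides.

Let `k` be a finite field, `D` a division ring that is the quotient ring of the algebra `R`
generated by a finite-dimensional space `V` with `1 ∈ V` and `dim V^n ≤ C n^2`.  Then `D` is
finite-dimensional over its centre, or for all `a ∈ D` and `b ∈ R` transcendental over `k` and all
`u ≠ 0` in `D` some `r ∈ R` is such that the elements `a^i (u r) b^j` are linearly independent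
over `k`.
-/

namespace Pool.Agent.Results.MP_fbbc72_al.FreePairs

open Pool.Agent.BQG Module Polynomial MulOpposite

theorem mem_adjoin_pow {k D : Type*} [Field k] [DivisionRing D] [Algebra k D]
    {V : Submodule k D} (h1 : (1 : D) ∈ V) {x : D} (hx : x ∈ Algebra.adjoin k (V : Set D)) :
    ∃ n, x ∈ V ^ n := by
  have hmono : ∀ {m n : ℕ}, m ≤ n → V ^ m ≤ V ^ n := by
    intro m n hmn
    exact pow_le_pow_right' (Submodule.one_le.mpr h1) hmn
  refine Algebra.adjoin_induction (p := fun x _ => ∃ n, x ∈ V ^ n) ?_ ?_ ?_ ?_ hx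
  · intro y hy
    exact ⟨1, by rw [pow_one]; exact hy⟩
  · intro c
    refine ⟨0, ?_⟩
    rw [pow_zero, Submodule.mem_one]
    exact ⟨c, rfl⟩
  · rintro y z _ _ ⟨m, hm⟩ ⟨n, hn⟩
    exact ⟨m + n, Submodule.add_mem _ (hmono (Nat.le_add_right _ _) hm)
      (hmono (Nat.le_add_left _ _) hn)⟩
  · rintro y z _ _ ⟨m, hm⟩ ⟨n, hn⟩
    exact ⟨m + n, Quad.mul_mem hm hn⟩

theorem pow_mem_adjoin {k D : Type*} [Field k] [DivisionRing D] [Algebra k D]
    {V : Submodule k D} (n : ℕ) : ∀ x ∈ V ^ n, x ∈ Algebra.adjoin k (V : Set D) := by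
  induction n with
  | zero =>
    intro x hx
    rw [pow_zero, Submodule.mem_one] at hx
    obtain ⟨c, rfl⟩ := hx
    exact Subalgebra.algebraMap_mem _ c
  | succ n ih =>
    intro x hx
    rw [pow_succ] at hx
    refine Submodule.mul_induction_on hx ?_ ?_
    · intro y hy z hz
      exact Subalgebra.mul_mem _ (ih y hy) (Algebra.subset_adjoin hz)
    · intro y z hy hz
      exact Subalgebra.add_mem _ hy hz

theorem result (k D : Type*) [Field k] [Finite k] [DivisionRing D] [Algebra k D]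
    (V : Submodule k D) (hfg : V.FG) (h1 : (1 : D) ∈ V) (C : ℕ)
    (hgrowth : ∀ n : ℕ, 1 ≤ n → Module.finrank k ↥(V ^ n) ≤ C * n ^ 2)
    (hfrac : ∀ d : D, ∃ u ∈ Algebra.adjoin k (V : Set D), ∃ v ∈ Algebra.adjoin k (V : Set D),
      v ≠ 0 ∧ d = u * v⁻¹) :
    Module.Finite (Subring.center D) D ∨
    ∀ a b u : D, Transcendental k a → Transcendental k b → b ∈ Algebra.adjoin k (V : Set D) →
      u ≠ 0 → ∃ r ∈ Algebra.adjoin k (V : Set D),
        LinearIndependent k (fun p : ℕ × ℕ => a ^ p.1 * (u * r) * b ^ p.2) := by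
  have hmono : ∀ {m n : ℕ}, m ≤ n → V ^ m ≤ V ^ n := by
    intro m n hmn
    exact pow_le_pow_right' (Submodule.one_le.mpr h1) hmn
  have h : Quad V C := by
    refine ⟨hfg, h1, hgrowth, fun d => ?_⟩
    obtain ⟨u, hu, v, hv, hv0, hd⟩ := hfrac d
    obtain ⟨m, hm⟩ := mem_adjoin_pow h1 hu
    obtain ⟨n, hn⟩ := mem_adjoin_pow h1 hv
    exact ⟨m + n, u, hmono (Nat.le_add_right _ _) hm, v, hmono (Nat.le_add_left _ _) hn, hv0, hd⟩
  by_cases hD : FinCent D
  · exact Or.inl hD
  right
  intro a b u ha hb hbR hu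
  obtain ⟨e, he⟩ := mem_adjoin_pow h1 hbR
  obtain ⟨n, r, hr, hli⟩ := h.pairFree hD ha hb hu he
  exact ⟨r, pow_mem_adjoin n r hr, hli⟩

end Pool.Agent.Results.MP_fbbc72_al.FreePairs
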