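import Pool.Agent.H.MP_fbbc72_al.h41.Core17

/-!
MP_fbbc72_al.  Division rings of quadratic growth over a finite field: elements that satisfy a
linear relation over `k(a)`.

Let `k` be a finite field, `D` a division ring that is the quotient ring of the algebra `R`
generated by a finite-dimensional space `V` with `1 ∈ V` and `dim V^n ≤ C n^2`, and `a ∈ V^e`
transcendental over `k`.  Then `D` is finite-dimensional over its centre, or all `y ∈ R` with a
nontrivial relation `∑ c_ij a^i y a^j = 0` lie in one division subring of dimension at most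
`C (e+1)^2` over `k(a)`, over which `D` has infinite dimension.
-/

namespace Pool.Agent.Results.MP_fbbc72_al.LinearRelations

open Pool.Agent.BQG Module Polynomial

theorem mem_adjoin_pow {k D : Type*} [Field k] [DivisionRing D] [Algebra k D]
    {V : Submodule k D} (h1 : (1 : D) ∈ V) {x : D} (hx : x ∈ Algebra.adjoin k (V : Set D)) :
    ∃ n, x ∈ V ^ n := by
  have hmono : ∀ {m n : ℕ}, m ≤ n → V ^ m ≤ V ^ n := by
    intro m n hmn
    exact pow_le_pow_right' (Submodule.one_le.mpr h1) hmn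
  refine Algebra.adjoin_induction (p := fun x _ => ∃ n, x ∈ V ^ n) ?_ ?_ ?_ ?_ hx
  · intro y hy
    exact ⟨1, by rw [pow_one]; exact hy⟩
  · intro c
    refine ⟨0, ?_⟩
    rw [pow_zero, Submodule.mem_one]
    exact ⟨c, rfl⟩
  · rintro y z _ _ ⟨m, hm⟩ ⟨n, hn⟩
    exact ⟨m + n, Submodule.add_mem _ (hmono (Nat.le_add_right _ _) hm)
      (hmono (Nat.le_add_left _ _) hn)⟩
  · rintro y z _ _ ⟨m, hm⟩ ⟨n, hn⟩
    exact ⟨m + n, Quad.mul_mem hm hn⟩

theorem result (k D : Type*) [Field k] [Finite k] [DivisionRing D] [Algebra k D]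
    (V : Submodule k D) (hfg : V.FG) (h1 : (1 : D) ∈ V) (C : ℕ)
    (hgrowth : ∀ n : ℕ, 1 ≤ n → Module.finrank k ↥(V ^ n) ≤ C * n ^ 2)
    (hfrac : ∀ d : D, ∃ u ∈ Algebra.adjoin k (V : Set D), ∃ v ∈ Algebra.adjoin k (V : Set D),
      v ≠ 0 ∧ d = u * v⁻¹)
    (a : D) (e : ℕ) (hae : a ∈ V ^ e) (ha : Transcendental k a) :
    Module.Finite (Subring.center D) D ∨
    ∃ L : Subfield D, (∀ c : k, algebraMap k D c ∈ L) ∧ a ∈ L ∧
      (∃ b : Fin (C * (e + 1) ^ 2) → D, ∀ z ∈ L, ∃ f : Fin (C * (e + 1) ^ 2) → D,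
        (∀ i, f i ∈ Subfield.closure (insert a (Set.range (algebraMap k D)))) ∧
        z = ∑ i, f i * b i) ∧
      ¬ Module.Finite L D ∧
      ∀ y ∈ Algebra.adjoin k (V : Set D), ∀ (N : ℕ) (c : Fin N → Fin N → k), c ≠ 0 →
        ∑ i, ∑ j, c i j • (a ^ (i : ℕ) * y * a ^ (j : ℕ)) = 0 → y ∈ L := by
  have hmono : ∀ {m n : ℕ}, m ≤ n → V ^ m ≤ V ^ n := by
    intro m n hmn
    exact pow_le_pow_right' (Submodule.one_le.mpr h1) hmn
  have h : Quad V C := by
    refine ⟨hfg, h1, hgrowth, fun d => ?_⟩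
    obtain ⟨u, hu, v, hv, hv0, hd⟩ := hfrac d
    obtain ⟨m, hm⟩ := mem_adjoin_pow h1 hu
    obtain ⟨n, hn⟩ := mem_adjoin_pow h1 hv
    exact ⟨m + n, u, hmono (Nat.le_add_right _ _) hm, v, hmono (Nat.le_add_left _ _) hn, hv0, hd⟩
  by_cases hD : FinCent D
  · exact Or.inl hD
  right
  let S : Set D := {y | (∃ n, y ∈ V ^ n) ∧ ∃ P : k[X][X], P ≠ 0 ∧ Phi a P y = 0}
  let L : Subfield D := Subfield.closure ((gen k a : Set D) ∪ S)
  have hFL : gen k a ≤ L := fun z hz => Subfield.subset_closure (Or.inl hz)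
  have hB : ∀ (N : ℕ) (x : Fin N → D), LinearIndependent (gen k a) x → (∀ i, x i ∈ L) →
      N ≤ C * (e + 1) ^ 2 := fun N x hx hxL => h.allTorsion hD ha hae N x hx hxL
  obtain ⟨b, -, hb⟩ := spanning_of_bound hFL _ hB
  refine ⟨L, fun c => hFL (algebraMap_mem_gen a c), hFL (self_mem_gen a), ⟨b, hb⟩, ?_, ?_⟩
  · intro hf
    exact hD (finCent_of_comm (gen k a) (gen_commutative a) (finite_tower hFL hB hf))
  · intro y hy N c hc hrel
    exact Subfield.subset_closure (Or.inr ⟨mem_adjoin_pow h1 hy, exists_Phi_of_table a y N c hc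
      hrel⟩)

end Pool.Agent.Results.MP_fbbc72_al.LinearRelations
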