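import Pool.Agent.H.MP_fbbc72_al.h23.V6

/-!
MP_fbbc72_al.  Division rings of quadratic growth over a finite field with a valuation.

Let `k` be a finite field and `D` a division `k`-algebra generated (as a division ring) by a
finite-dimensional space `V` with `1 ∈ V` and `dim V^n ≤ C n^2`.  If `D` has a nontrivial valuation,
with values in a linearly ordered abelian group, whose residue division ring is not algebraic over
`k`, then `D` is finite-dimensional over its centre.
-/

namespace Pool.Agent.Results.MP_fbbc72_al.Valuation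

open Pool.Agent.BQG Module Polynomial

theorem result (k D : Type*) [Field k] [Finite k] [DivisionRing D] [Algebra k D]
    (V : Submodule k D) (hfg : V.FG) (h1 : (1 : D) ∈ V) (C : ℕ)
    (hgrowth : ∀ n : ℕ, 1 ≤ n → Module.finrank k ↥(V ^ n) ≤ C * n ^ 2)
    (hgen : ∀ K : Subfield D, (∀ c : k, algebraMap k D c ∈ K) → (∀ x ∈ V, x ∈ K) → K = ⊤)
    (Γ : Type*) [AddCommGroup Γ] [LinearOrder Γ] [IsOrderedAddMonoid Γ] (ν : D → Γ)
    (hmul : ∀ x y : D, x ≠ 0 → y ≠ 0 → ν (x * y) = ν x + ν y)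
    (hadd : ∀ x y : D, x ≠ 0 → y ≠ 0 → x + y ≠ 0 → min (ν x) (ν y) ≤ ν (x + y))
    (hnt : ∃ x : D, x ≠ 0 ∧ ν x ≠ 0)
    (a : D) (ha : ∀ f : k[X], f ≠ 0 → aeval a f ≠ 0 ∧ ν (aeval a f) = 0) :
    Module.Finite (Subring.center D) D := by
  obtain ⟨K, hK, hVK, hkK⟩ := exists_fracField V hfg h1 C hgrowth
  have hK' : K = ⊤ := hgen K hkK (fun x hx => hVK hx)
  have hV : Quad V C := by
    refine ⟨hfg, h1, hgrowth, fun d => ?_⟩
    have hd : d ∈ K := by rw [hK']; trivial
    exact (hK d).1 hd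
  have hv : GVal ν := ⟨hmul, hadd⟩
  have hat : Transcendental k a := by
    rw [transcendental_iff]
    intro p hp
    by_contra hp0
    exact (ha p hp0).1 hp
  refine hV.finCent_of_gval hv hnt hat (fun f hf hf0 => ?_)
  obtain ⟨p, q, hp, hpq⟩ := gen_frac hat hf
  have hq : q ≠ 0 := by
    rintro rfl
    rw [map_zero] at hpq
    rcases mul_eq_zero.mp hpq with h2 | h2
    · exact (ha p hp).1 h2
    · exact hf0 h2
  have h3 := hmul _ _ (ha p hp).1 hf0
  rw [hpq, (ha q hq).2, (ha p hp).2, zero_add] at h3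
  exact h3.symm

end Pool.Agent.Results.MP_fbbc72_al.Valuation
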